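import Mathlib

/-! Project DA (MP_8bcfe8_an, ALL self-adjoint coercive `A`, unbounded, no eigenbasis): the optimal
velocity constant of `u'' + c u' + A u = f` is nonincreasing in `c`. The operator families
`P_c(t), G_c(t)` (entries of the group of the first order system; `P_c(t) v` is the solution with
`u(0) = 0, u'(0) = v`, `G_c(t) v` its velocity) are data, for each `c > 0`. -/

set_option autoImplicit false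

namespace Pool.Agent.X83.DA

open MeasureTheory Set Filter Topology RealInnerProductSpace

section
variable (H : Type*) [NormedAddCommGroup H] [InnerProductSpace ℝ H] [CompleteSpace H]

variable {H} in
/-- `A` is self-adjoint (`max` says `A* ⊆ A`) with `⟪A v, v⟫ ≥ b ‖v‖²`, `b > 0` -/
structure SA (D : Submodule ℝ H) (A : D →ₗ[ℝ] H) (b : ℝ) : Prop where
  dense : Dense (D : Set H)
  sym : ∀ v w : D, ⟪A v, (w : H)⟫ = ⟪(v : H), A w⟫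
  max : ∀ x z : H, (∀ y : D, ⟪A y, x⟫ = ⟪(y : H), z⟫) → ∃ h : x ∈ D, A ⟨x, h⟩ = z
  bpos : 0 < b
  coer : ∀ v : D, b * ‖(v : H)‖ ^ 2 ≤ ⟪A v, (v : H)⟫

variable {H} in
/-- the operator families of `u'' + c u' + A u = 0` -/
structure Fam (D : Submodule ℝ H) (A : D →ₗ[ℝ] H) (c : ℝ) (P G : ℝ → H →L[ℝ] H) : Prop where
  P0 : P 0 = 0
  G0 : G 0 = 1
  cont : ∀ x, Continuous fun t => G t x
  dP : ∀ (x : H) (t : ℝ), HasDerivAt (fun s => P s x) (G t x) t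
  comP : ∀ (t : ℝ) (v : D), ∃ h : P t v ∈ D, A ⟨P t v, h⟩ = P t (A v)
  dG : ∀ (t : ℝ) (v : D), HasDerivAt (fun s => G s (v : H)) (-(c • G t (v : H)) - P t (A v)) t

/-- (EN) the energy estimate, `E = ‖R‖² + ⟪W, Z⟫ + 2 ε ⟪Z, R⟫`; note `⟪W, Z⟫' = 2 ⟪W, R⟫` by
`⟪W(t+h), Z(t+h)⟫ - ⟪W t, Z t⟫ = ⟪W(t+h) + W t, Z(t+h) - Z t⟫` (symmetry of `A`) -/
def S_EN : Prop := ∀ (b c1 c2 : ℝ), 0 < b → 0 < c1 → c1 ≤ c2 → ∃ γ0 : ℝ, 0 < γ0 ∧ ∀ γ : ℝ, 0 < γ →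
  γ ≤ γ0 → ∃ C : ℝ, 0 ≤ C ∧ ∀ (D : Submodule ℝ H) (A : D →ₗ[ℝ] H), SA D A b → ∀ c ∈ Icc c1 c2,
  ∀ (Z R W g : ℝ → H) (m : ℝ), 0 ≤ m → Continuous W →
  (∀ s : ℝ, HasDerivAt Z (R s) s) →
  (∀ s : ℝ, HasDerivAt R (-(c • R s) - W s + g s) s) →
  (∀ s : ℝ, ∃ h : Z s ∈ D, A ⟨Z s, h⟩ = W s) →
  (∀ s : ℝ, 0 ≤ s → ‖g s‖ ≤ m * Real.exp (-(γ * s))) → ∀ s : ℝ, 0 ≤ s →
    ‖Z s‖ ≤ C * (Real.sqrt ⟪W 0, Z 0⟫ + ‖R 0‖ + m) * Real.exp (-(γ / 2 * s)) ∧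
    ‖R s‖ ≤ C * (Real.sqrt ⟪W 0, Z 0⟫ + ‖R 0‖ + m) * Real.exp (-(γ / 2 * s))

variable {H} in
/-- the derivative of `g` with respect to `c` -/
noncomputable def YY (c : ℝ) (g : ℝ → H) (s : ℝ) : H :=
  (-(s / 2)) • g s + (Real.exp (-(c * s / 2)) / 2) •
    ∫ r in (0 : ℝ)..s, ((c * r / 2 - 1) * Real.exp (c * r / 2)) • g r

variable {H} in
/-- its primitive -/
noncomputable def XX (c : ℝ) (p : ℝ → H) (s : ℝ) : H :=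
  (-(s / 2)) • p s + (c / 4 * Real.exp (-(c * s / 2))) •
    ∫ r in (0 : ℝ)..s, (r * Real.exp (c * r / 2)) • p r

/-- (YID) with `J = ∫_0^s r e^{cr/2} p`, `∫_0^s (cr/2-1) e^{cr/2} g = (cs/2-1) e^{cs/2} p - (c²/4) J`, so
`YY c g = -p/2 - (s/2) g - (c²/8) e^{-cs/2} J + (c/4) s p = (XX c p)'`; the second equation from
`∫_0^s r e^{cr/2} q - (c²/4) J = e^{cs/2} (p - s g - (c/2) s p)` (same derivative, zero at zero) -/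
def S_YID : Prop := ∀ (c : ℝ) (p g q : ℝ → H), p 0 = 0 → Continuous q →
  (∀ s, HasDerivAt p (g s) s) → (∀ s, HasDerivAt g (-(c • g s) - q s) s) →
  (∀ s, HasDerivAt (XX c p) (YY c g s) s) ∧
  ∀ s, HasDerivAt (YY c g) (-(c • YY c g s) - XX c q s - g s) s

/-- (MEM) `XX` stays in the domain (by `SA.max` and `SA.sym`) -/
def S_MEM : Prop := ∀ (D : Submodule ℝ H) (A : D →ₗ[ℝ] H) (b c : ℝ) (P G : ℝ → H →L[ℝ] H),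
  SA D A b → Fam D A c P G → ∀ (v : D) (s : ℝ),
    ∃ h : XX c (fun t => P t (v : H)) s ∈ D, A ⟨_, h⟩ = XX c (fun t => P t (A v)) s

/-- (ST1) from EN (for `(P v, G v)`, then `(X, Y)`, `X = XX c (P v)`, `Y = YY c (G v)`, then
`Z = P' v - P v - h X`, `R = G' v - G v - h Y` which has `R' = -(c+h) R - A Z - h² Y`), YID, MEM.
`∫ G v = lim P v = 0`. All for `v ∈ D`, and then the first bounds for all `v` by density. -/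
def S_ST1 : Prop := S_EN H → S_YID H → S_MEM H → ∀ (b c1 c2 : ℝ), 0 < b → 0 < c1 → c1 ≤ c2 →
  ∃ γ C : ℝ, 0 < γ ∧ 0 ≤ C ∧ ∀ (D : Submodule ℝ H) (A : D →ₗ[ℝ] H), SA D A b →
  ∀ c h : ℝ, c1 ≤ c → 0 ≤ h → c + h ≤ c2 → ∀ P G P' G' : ℝ → H →L[ℝ] H,
  Fam D A c P G → Fam D A (c + h) P' G' →
  (∀ (v : H) (s : ℝ), 0 ≤ s → ‖P s v‖ ≤ C * ‖v‖ * Real.exp (-(γ * s)) ∧
    ‖G s v‖ ≤ C * ‖v‖ * Real.exp (-(γ * s))) ∧
  (∀ v : H, ∫ s in Ioi (0 : ℝ), G s v = 0) ∧ ∀ (v : D) (s : ℝ), 0 ≤ s →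
    ‖G' s (v : H) - G s (v : H) - h • YY c (fun s => G s (v : H)) s‖ ≤
      C * ‖(v : H)‖ * h ^ 2 * Real.exp (-(γ * s))

/-- (ST2) one step, `N(s,r) = (1/2) e^{-cs/2} (1 + (cr/2 - 1) e^{cr/2} 1_{r<s}) ≥ 0`,
`∫ N(s,r) ds = r/2`, `YY c g s = -(s/2) g s + ∫ N(s,r) g(r) dr` since `∫ g = 0`, Tonelli -/
def S_ST2 : Prop := ∀ (γ C : ℝ), 0 < γ → 0 ≤ C → ∃ C' : ℝ, ∀ (c h : ℝ), 0 < c → 0 ≤ h →
  ∀ g g' : ℝ → H, Continuous g → Continuous g' →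
  (∫ s in Ioi (0 : ℝ), g s = 0) → (∀ s : ℝ, 0 ≤ s → ‖g s‖ ≤ C * Real.exp (-(γ * s))) →
  (∀ s : ℝ, 0 ≤ s → ‖g' s‖ ≤ C * Real.exp (-(γ * s))) →
  (∀ s : ℝ, 0 ≤ s → ‖g' s - g s - h • YY c g s‖ ≤ C * h ^ 2 * Real.exp (-(γ * s))) →
  ∫ s in Ioi (0 : ℝ), ‖g' s‖ ≤ (∫ s in Ioi (0 : ℝ), ‖g s‖) + C' * h ^ 2

/-- (SYM) `G_c(t)` is symmetric: for `v w ∈ D` the function
`r ↦ ⟪G r v, G (t-r) w⟫ - ⟪P r v, P (t-r) (A w)⟫` is constant; density -/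
def S_SYM : Prop := ∀ (D : Submodule ℝ H) (A : D →ₗ[ℝ] H) (b c : ℝ) (P G : ℝ → H →L[ℝ] H),
  SA D A b → Fam D A c P G → ∀ (t : ℝ) (v w : H), ⟪G t v, w⟫ = ⟪v, G t w⟫

variable {H} in
/-- `K` bounds the velocity. `z` is the velocity `-P_c(t) A u0` of the solution of the homogeneous
equation with data `(u0, 0)`, `u0 ∈ D(A^{1/2})` (that is, a limit of elements of `D` which is Cauchy for
the energy norm); the velocity of the mild solution with data `(u0, u1)` is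
`z t + G_c(t) u1 + ∫_0^t G_c(t-s) f(s) ds` -/
def Good (D : Submodule ℝ H) (A : D →ₗ[ℝ] H) (P G : ℝ → H →L[ℝ] H) (K : ℝ) : Prop :=
  ∀ (x : ℕ → D) (z : ℝ → H), (∀ ε : ℝ, 0 < ε → ∃ N : ℕ, ∀ m n : ℕ, N ≤ m → N ≤ n →
      ⟪A (x m - x n), ((x m - x n : D) : H)⟫ < ε) →
    (∀ t : ℝ, 0 ≤ t → Tendsto (fun n => -(P t (A (x n)))) atTop (𝓝 (z t))) →
  ∀ (u1 : H) (f : ℝ → H) (L : ℝ), LocallyIntegrable f → (∀ᶠ t in atTop, ‖f t‖ ≤ L) →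
    ∀ ε : ℝ, 0 < ε → ∀ᶠ t in atTop,
      ‖z t + G t u1 + ∫ s in (0 : ℝ)..t, G (t - s) (f s)‖ ≤ K * L + ε

/-- exponential bounds, given by (ST1), also for `z` by (EN) -/
def Dec (P G : ℝ → H →L[ℝ] H) : Prop := ∃ γ C : ℝ, 0 < γ ∧ 0 ≤ C ∧ ∀ (v : H) (s : ℝ), 0 ≤ s →
  ‖P s v‖ ≤ C * ‖v‖ * Real.exp (-(γ * s)) ∧ ‖G s v‖ ≤ C * ‖v‖ * Real.exp (-(γ * s))

/-- (ZDEC) decay of `z` by (EN) applied to the velocity and position of the solutions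
`Z = G t x + c P t x`, `R = -P t (A x)`, `W = G t (A x) + c P t (A x)` for `x ∈ D`
(prove `A G t x = G t A x` by `SA.max`, `G t x` being the derivative of `P t x`) -/
def S_ZDEC : Prop := S_EN H → ∀ (D : Submodule ℝ H) (A : D →ₗ[ℝ] H) (b c : ℝ)
  (P G : ℝ → H →L[ℝ] H), 0 < c → SA D A b → Fam D A c P G →
  ∀ (x : ℕ → D) (z : ℝ → H), (∀ ε : ℝ, 0 < ε → ∃ N : ℕ, ∀ m n : ℕ, N ≤ m → N ≤ n →
      ⟪A (x m - x n), ((x m - x n : D) : H)⟫ < ε) →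
    (∀ t : ℝ, 0 ≤ t → Tendsto (fun n => -(P t (A (x n)))) atTop (𝓝 (z t))) → Tendsto z atTop (𝓝 0)

/-- (UP) duality, upper bound: pair with unit vectors -/
def S_UP : Prop := ∀ (D : Submodule ℝ H) (A : D →ₗ[ℝ] H) (b c K : ℝ) (P G : ℝ → H →L[ℝ] H),
  0 ≤ K → SA D A b → Fam D A c P G → Dec H P G → (∀ (t : ℝ) (v w : H), ⟪G t v, w⟫ = ⟪v, G t w⟫) →
  (∀ (x : ℕ → D) (z : ℝ → H), (∀ ε : ℝ, 0 < ε → ∃ N : ℕ, ∀ m n : ℕ, N ≤ m → N ≤ n →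
      ⟪A (x m - x n), ((x m - x n : D) : H)⟫ < ε) →
    (∀ t : ℝ, 0 ≤ t → Tendsto (fun n => -(P t (A (x n)))) atTop (𝓝 (z t))) →
    Tendsto z atTop (𝓝 0)) →
  (∀ v : H, ∫ s in Ioi (0 : ℝ), ‖G s v‖ ≤ K * ‖v‖) → Good D A P G K

/-- (LOW) duality, lower bound: test with `x = 0`, `z = 0`, `u1 = 0` and the function `f` equal to
`G(nQ - s) v / ‖G(nQ - s) v‖` on `(nQ - T, nQ)`, `Q` large, pair with `v` at the times `nQ` -/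
def S_LOW : Prop := ∀ (D : Submodule ℝ H) (A : D →ₗ[ℝ] H) (b c K : ℝ) (P G : ℝ → H →L[ℝ] H),
  SA D A b → Fam D A c P G → Dec H P G → (∀ (t : ℝ) (v w : H), ⟪G t v, w⟫ = ⟪v, G t w⟫) →
  Good D A P G K → ∀ v : H, ∫ s in Ioi (0 : ℝ), ‖G s v‖ ≤ K * ‖v‖

end

end Pool.Agent.X83.DA
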