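import Pool.Agent.X83.DA.Stm
import Pool.Agent.X83.DM.Tel

set_option autoImplicit false

namespace Pool.Agent.X83.DA

open MeasureTheory Set Filter Topology RealInnerProductSpace

section
variable {H : Type*} [NormedAddCommGroup H] [InnerProductSpace ℝ H] [CompleteSpace H]

theorem int_exp {η : ℝ} (hη : 0 < η) :
    IntegrableOn (fun s : ℝ => Real.exp (-(η * s))) (Ioi 0) := by
  have := exp_neg_integrableOn_Ioi 0 hη
  simpa [neg_mul] using this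

theorem int_G {γ C : ℝ} (hγ : 0 < γ) {G : ℝ → H →L[ℝ] H} (hc : ∀ x, Continuous fun t => G t x)
    (hb : ∀ (v : H) (s : ℝ), 0 ≤ s → ‖G s v‖ ≤ C * ‖v‖ * Real.exp (-(γ * s))) (v : H) :
    IntegrableOn (fun s => ‖G s v‖) (Ioi 0) := by
  refine Integrable.mono' ((int_exp hγ).const_mul (C * ‖v‖)) (hc v).norm.aestronglyMeasurable ?_
  refine (ae_restrict_iff' measurableSet_Ioi).2 (Eventually.of_forall fun s hs => ?_)
  rw [norm_norm]
  exact hb v s (le_of_lt hs)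

theorem phi_cont {γ C : ℝ} (hγ : 0 < γ) (hC : 0 ≤ C) {G : ℝ → H →L[ℝ] H}
    (hc : ∀ x, Continuous fun t => G t x)
    (hb : ∀ (v : H) (s : ℝ), 0 ≤ s → ‖G s v‖ ≤ C * ‖v‖ * Real.exp (-(γ * s))) :
    Continuous fun v : H => ∫ s in Ioi (0 : ℝ), ‖G s v‖ := by
  set E : ℝ := ∫ s in Ioi (0:ℝ), Real.exp (-(γ * s)) with hE
  have hle : ∀ v w : H, (∫ s in Ioi (0 : ℝ), ‖G s v‖) ≤ (∫ s in Ioi (0 : ℝ), ‖G s w‖) +
      C * E * ‖v - w‖ := by
    intro v w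
    have h1 : ∫ s in Ioi (0 : ℝ), ‖G s v‖ ≤
        ∫ s in Ioi (0 : ℝ), (‖G s w‖ + C * ‖v - w‖ * Real.exp (-(γ * s))) := by
      refine setIntegral_mono_on (int_G hγ hc hb v)
        ((int_G hγ hc hb w).add ((int_exp hγ).const_mul (C * ‖v - w‖))) measurableSet_Ioi
        fun s hs => ?_
      have h2 := hb (v - w) s (le_of_lt hs)
      have h3 : G s v = G s w + G s (v - w) := by rw [← map_add]; congr 1; abel
      calc ‖G s v‖ ≤ ‖G s w‖ + ‖G s (v - w)‖ := by rw [h3]; exact norm_add_le _ _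
        _ ≤ _ := by linarith
    rw [integral_add (int_G hγ hc hb w) ((int_exp hγ).const_mul (C * ‖v - w‖)),
      integral_const_mul] at h1
    have : C * ‖v - w‖ * E = C * E * ‖v - w‖ := by ring
    rw [← this]
    exact h1
  have hE0 : 0 ≤ E := integral_nonneg fun s => (Real.exp_pos _).le
  refine (LipschitzWith.of_dist_le_mul (K := Real.toNNReal (C * E)) fun v w => ?_).continuous
  rw [Real.dist_eq, dist_eq_norm]
  have h1 := hle v w
  have h2 := hle w v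
  rw [norm_sub_rev w v] at h2
  rw [abs_le]
  rw [Real.coe_toNNReal _ (mul_nonneg hC hE0)]
  constructor <;> linarith

/-- the kernel inequality for all vectors -/
theorem phi_anti (hEN : S_EN H) (hYID : S_YID H) (hMEM : S_MEM H) (hST1 : S_ST1 H) (hST2 : S_ST2 H)
    (D : Submodule ℝ H) (A : D →ₗ[ℝ] H) (b : ℝ) (hA : SA D A b) (P G : ℝ → ℝ → H →L[ℝ] H)
    (hF : ∀ c : ℝ, 0 < c → Fam D A c (P c) (G c)) (c1 c2 : ℝ) (hc1 : 0 < c1) (hc : c1 ≤ c2)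
    (v : H) : ∫ s in Ioi (0 : ℝ), ‖G c2 s v‖ ≤ ∫ s in Ioi (0 : ℝ), ‖G c1 s v‖ := by
  obtain ⟨γ, C, hγ, hC, h1⟩ := hST1 hEN hYID hMEM b c1 c2 hA.bpos hc1 hc
  have hb : ∀ c ∈ Icc c1 c2, ∀ (v : H) (s : ℝ), 0 ≤ s →
      ‖G c s v‖ ≤ C * ‖v‖ * Real.exp (-(γ * s)) := by
    intro c hcc v s hs
    have hFc := hF c (lt_of_lt_of_le hc1 hcc.1)
    have hFc' : Fam D A (c + 0) (P c) (G c) := by simpa using hFc
    exact ((h1 D A hA c 0 hcc.1 le_rfl (by simpa using hcc.2) (P c) (G c) (P c) (G c)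
      hFc hFc').1 v s hs).2
  have hcl : IsClosed {v : H | ∫ s in Ioi (0 : ℝ), ‖G c2 s v‖ ≤ ∫ s in Ioi (0 : ℝ), ‖G c1 s v‖} :=
    isClosed_le
      (phi_cont hγ hC (hF c2 (by linarith)).cont (hb c2 ⟨hc, le_rfl⟩))
      (phi_cont hγ hC (hF c1 hc1).cont (hb c1 ⟨le_rfl, hc⟩))
  have hsub : (D : Set H) ⊆
      {v : H | ∫ s in Ioi (0 : ℝ), ‖G c2 s v‖ ≤ ∫ s in Ioi (0 : ℝ), ‖G c1 s v‖} := by
    intro v hv
    obtain ⟨C', hC'⟩ := hST2 γ (C * ‖v‖) hγ (mul_nonneg hC (norm_nonneg _))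
    refine Pool.Agent.X83.DM.t_TEL (fun c => ∫ s in Ioi (0 : ℝ), ‖G c s v‖) c1 c2 C' hc ?_
    intro c hcc c' hcc' hle
    have hFc := hF c (lt_of_lt_of_le hc1 hcc.1)
    have hFc' := hF c' (lt_of_lt_of_le hc1 hcc'.1)
    have hFc'' : Fam D A (c + (c' - c)) (P c') (G c') := by
      rw [add_sub_cancel]; exact hFc'
    obtain ⟨h2, h3, h4⟩ := h1 D A hA c (c' - c) hcc.1 (by linarith) (by linarith [hcc'.2])
      (P c) (G c) (P c') (G c') hFc hFc''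
    refine hC' c (c' - c) (lt_of_lt_of_le hc1 hcc.1) (by linarith) (fun s => G c s v)
      (fun s => G c' s v) (hFc.cont v) (hFc'.cont v) (h3 v) (hb c hcc v) (hb c' hcc' v) ?_
    intro s hs
    exact h4 ⟨v, hv⟩ s hs
  have := closure_minimal hsub hcl
  rw [hA.dense.closure_eq] at this
  exact this (mem_univ v)

theorem main (hEN : S_EN H) (hYID : S_YID H) (hMEM : S_MEM H) (hST1 : S_ST1 H) (hST2 : S_ST2 H)
    (hSYM : S_SYM H) (hZ : S_ZDEC H) (hUP : S_UP H) (hLOW : S_LOW H)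
    (D : Submodule ℝ H) (A : D →ₗ[ℝ] H) (b : ℝ) (hA : SA D A b) (P G : ℝ → ℝ → H →L[ℝ] H)
    (hF : ∀ c : ℝ, 0 < c → Fam D A c (P c) (G c)) (c1 c2 : ℝ) (hc1 : 0 < c1) (hc : c1 ≤ c2)
    (K : ℝ) (hK : 0 ≤ K) (hg : Good D A (P c1) (G c1) K) : Good D A (P c2) (G c2) K := by
  have hdec : ∀ c : ℝ, 0 < c → Dec H (P c) (G c) := by
    intro c hcc
    obtain ⟨γ, C, hγ, hC, h1⟩ := hST1 hEN hYID hMEM b c c hA.bpos hcc le_rfl
    have hFc := hF c hcc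
    have hFc' : Fam D A (c + 0) (P c) (G c) := by simpa using hFc
    exact ⟨γ, C, hγ, hC, (h1 D A hA c 0 le_rfl le_rfl (by simp) (P c) (G c) (P c) (G c)
      hFc hFc').1⟩
  have hc2 : 0 < c2 := by linarith
  have h1 := hLOW D A b c1 K (P c1) (G c1) hA (hF c1 hc1) (hdec c1 hc1)
    (hSYM D A b c1 (P c1) (G c1) hA (hF c1 hc1)) hg
  refine hUP D A b c2 K (P c2) (G c2) hK hA (hF c2 hc2) (hdec c2 hc2)
    (hSYM D A b c2 (P c2) (G c2) hA (hF c2 hc2)) ?_ ?_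
  · exact hZ hEN D A b c2 (P c2) (G c2) hc2 hA (hF c2 hc2)
  · intro v
    exact (phi_anti hEN hYID hMEM hST1 hST2 D A b hA P G hF c1 c2 hc1 hc v).trans (h1 v)

end

end Pool.Agent.X83.DA
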