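import Pool.Agent.X83.DA.Stm

set_option autoImplicit false

namespace Pool.Agent.X83.DA

open MeasureTheory Set Filter Topology RealInnerProductSpace

theorem exp_fam {V : Type*} [NormedAddCommGroup V] [NormedSpace ℝ V] [CompleteSpace V]
    (L M : V →L[ℝ] V) (h : ∀ p, M (L p) = L (M p)) : ∃ E : ℝ → V →L[ℝ] V, E 0 = 1 ∧
    (∀ (p : V) (t : ℝ), HasDerivAt (fun t => E t p) (L (E t p)) t) ∧
    ∀ (t : ℝ) (p : V), M (E t p) = E t (M p) := by
  have hML : Commute M L := by
    show M * L = L * M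
    ext p; exact h p
  refine ⟨fun t => NormedSpace.exp (t • L), by simp, ?_, ?_⟩
  · intro p t
    have h1 := hasDerivAt_exp_smul_const' (𝕂 := ℝ) L t
    have h2 := h1.clm_apply (hasDerivAt_const t p)
    simpa using h2
  · intro t p
    have h3 : Commute M (NormedSpace.exp (t • L)) := (hML.smul_right t).exp_right
    exact congrArg (fun T : V →L[ℝ] V => T p) h3.eq

section
variable {H : Type*} [NormedAddCommGroup H] [InnerProductSpace ℝ H] [CompleteSpace H]

/-- the families exist for every bounded operator -/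
theorem fam_bounded (B : H →L[ℝ] H) (c : ℝ) :
    ∃ P G : ℝ → H →L[ℝ] H,
      Fam (⊤ : Submodule ℝ H) (B.toLinearMap.comp (⊤ : Submodule ℝ H).subtype) c P G := by
  let L : (H × H) →L[ℝ] (H × H) := (ContinuousLinearMap.snd ℝ H H).prod
    (-(c • ContinuousLinearMap.snd ℝ H H) - B.comp (ContinuousLinearMap.fst ℝ H H))
  have hL : ∀ p : H × H, L p = (p.2, -(c • p.2) - B p.1) := by
    intro p; simp [L]
  let M : (H × H) →L[ℝ] (H × H) := (B.comp (ContinuousLinearMap.fst ℝ H H)).prod
    (B.comp (ContinuousLinearMap.snd ℝ H H))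
  have hM : ∀ p : H × H, M p = (B p.1, B p.2) := by
    intro p; simp [M]
  obtain ⟨E, hE0, hE, hME⟩ := exp_fam L M (fun p => by rw [hL, hM, hM, hL]; simp)
  let P : ℝ → H →L[ℝ] H := fun t => (ContinuousLinearMap.fst ℝ H H).comp
    ((E t).comp (ContinuousLinearMap.inr ℝ H H))
  let G : ℝ → H →L[ℝ] H := fun t => (ContinuousLinearMap.snd ℝ H H).comp
    ((E t).comp (ContinuousLinearMap.inr ℝ H H))
  have hP : ∀ t x, P t x = (E t (0, x)).1 := fun t x => rfl
  have hG : ∀ t x, G t x = (E t (0, x)).2 := fun t x => rfl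
  have hcom : ∀ t x, E t (0, B x) = (B (E t (0, x)).1, B (E t (0, x)).2) := by
    intro t x
    have h1 : M (E t (0, x)) = E t (M (0, x)) := hME t (0, x)
    rw [hM, hM] at h1
    simpa using h1.symm
  have dP : ∀ (x : H) (t : ℝ), HasDerivAt (fun s => P s x) (G t x) t := by
    intro x t
    have h2 := (hasFDerivAt_fst (𝕜 := ℝ) (p := E t (0, x))).comp_hasDerivAt t (hE (0, x) t)
    rw [hL] at h2
    exact h2
  have dG : ∀ (x : H) (t : ℝ), HasDerivAt (fun s => G s x) (-(c • G t x) - P t (B x)) t := by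
    intro x t
    have h2 := (hasFDerivAt_snd (𝕜 := ℝ) (p := E t (0, x))).comp_hasDerivAt t (hE (0, x) t)
    rw [hL] at h2
    have h3 : P t (B x) = B (E t (0, x)).1 := by rw [hP, hcom]
    rw [h3]
    exact h2
  refine ⟨P, G, ⟨?_, ?_, ?_, dP, ?_, ?_⟩⟩
  · ext x; rw [hP, hE0]; simp
  · ext x; rw [hG, hE0]; simp
  · exact fun x => continuous_iff_continuousAt.2 fun t => (dG x t).continuousAt
  · intro t v
    refine ⟨Submodule.mem_top, ?_⟩
    show B (P t v) = P t (B v)
    rw [hP, hP, hcom]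
  · intro t v
    exact dG v t

end

end Pool.Agent.X83.DA
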