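import Pool.Agent.X83.DA.Main
import Pool.Agent.X231.DA.EN

set_option autoImplicit false

namespace Pool.Agent.X83.DA

open MeasureTheory Set Filter Topology RealInnerProductSpace

variable {H : Type*} [NormedAddCommGroup H] [InnerProductSpace ℝ H] [CompleteSpace H]

/-- `K` bounds the velocity of all mild solutions of `u'' + c u' + A u = f`: `limsup ‖u'‖ ≤ K L`
whenever `limsup ‖f‖ ≤ L`-/
def Adm (D : Submodule ℝ H) (A : D →ₗ[ℝ] H) (c K : ℝ) : Prop :=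
  ∀ P G : ℝ → H →L[ℝ] H, Fam D A c P G → Good D A P G K

/-- the optimal constant `K(A,c)` -/
noncomputable def Kopt (D : Submodule ℝ H) (A : D →ₗ[ℝ] H) (c : ℝ) : ℝ :=
  sInf {K : ℝ | 0 ≤ K ∧ Adm D A c K}

theorem final (hEX : ∀ (D : Submodule ℝ H) (A : D →ₗ[ℝ] H) (b c : ℝ), SA D A b → 0 < c →
      ∃ P G : ℝ → H →L[ℝ] H, Fam D A c P G)
    (D : Submodule ℝ H) (A : D →ₗ[ℝ] H) (b : ℝ) (hA : SA D A b) :
    (∀ c1 c2 : ℝ, 0 < c1 → c1 < c2 → Kopt D A c2 ≤ Kopt D A c1) ∧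
    ∀ c : ℝ, 0 < c → (0 ≤ Kopt D A c ∧ Adm D A c (Kopt D A c)) ∧
      ∃ P G : ℝ → H →L[ℝ] H, Fam D A c P G ∧
        (∀ P' G' : ℝ → H →L[ℝ] H, Fam D A c P' G' → ∀ t : ℝ, 0 ≤ t → P' t = P t ∧ G' t = G t) ∧
        ∀ K : ℝ, 0 ≤ K → (Adm D A c K ↔ ∀ v : H, ∫ s in Ioi (0 : ℝ), ‖G s v‖ ≤ K * ‖v‖) := by
  have hEN : S_EN H := Pool.Agent.X231.DA.t H
  have hex : ∀ c : ℝ, ∃ PG : (ℝ → H →L[ℝ] H) × (ℝ → H →L[ℝ] H), 0 < c → Fam D A c PG.1 PG.2 := by
    intro c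
    by_cases hc : 0 < c
    · obtain ⟨P, G, h⟩ := hEX D A b c hA hc
      exact ⟨(P, G), fun _ => h⟩
    · exact ⟨(0, 0), fun h => absurd h hc⟩
  choose PG hPG using hex
  set P : ℝ → ℝ → H →L[ℝ] H := fun c => (PG c).1 with hP
  set G : ℝ → ℝ → H →L[ℝ] H := fun c => (PG c).2 with hG
  have hF : ∀ c : ℝ, 0 < c → Fam D A c (P c) (G c) := fun c hc => hPG c hc
  have hform : ∀ c : ℝ, 0 < c → ∀ K : ℝ, 0 ≤ K →
      (Adm D A c K ↔ ∀ v : H, ∫ s in Ioi (0 : ℝ), ‖G c s v‖ ≤ K * ‖v‖) := by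
    intro c hc K hK
    constructor
    · intro h
      exact (final_formula hEN D A b c hA hc (P c) (G c) (hF c hc) K hK).1 (h _ _ (hF c hc))
    · intro h P' G' hF'
      rw [final_formula hEN D A b c hA hc P' G' hF' K hK]
      intro v
      have : ∫ s in Ioi (0 : ℝ), ‖G' s v‖ = ∫ s in Ioi (0 : ℝ), ‖G c s v‖ := by
        refine setIntegral_congr_fun measurableSet_Ioi fun s hs => ?_
        simp only [(fam_unique hEN D A b c hc hA P' G' (P c) (G c) hF' (hF c hc) s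
          (le_of_lt hs)).2]
      rw [this]
      exact h v
  have hne : ∀ c : ℝ, 0 < c → {K : ℝ | 0 ≤ K ∧ Adm D A c K}.Nonempty := by
    intro c hc
    obtain ⟨K0, hK0, hg0⟩ := final_exists hEN D A b c hA hc (P c) (G c) (hF c hc)
    refine ⟨K0, hK0, (hform c hc K0 hK0).2 ?_⟩
    exact (final_formula hEN D A b c hA hc (P c) (G c) (hF c hc) K0 hK0).1 hg0
  refine ⟨fun c1 c2 hc1 hc => ?_, fun c hc => ?_⟩
  · refine csInf_le_csInf ⟨0, fun K hK => hK.1⟩ (hne c1 hc1) fun K hK => ⟨hK.1, ?_⟩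
    have hc2 : 0 < c2 := by linarith
    have h1 := hK.2 (P c1) (G c1) (hF c1 hc1)
    have h2 := final_mono hEN D A b hA P G hF c1 c2 hc1 hc.le K hK.1 h1
    rw [hform c2 hc2 K hK.1]
    exact (final_formula hEN D A b c2 hA hc2 (P c2) (G c2) (hF c2 hc2) K hK.1).1 h2
  · have h0 : 0 ≤ Kopt D A c := le_csInf (hne c hc) fun K hK => hK.1
    refine ⟨⟨h0, ?_⟩, P c, G c, hF c hc, fun P' G' hF' t ht =>
      fam_unique hEN D A b c hc hA P' G' (P c) (G c) hF' (hF c hc) t ht, hform c hc⟩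
    rw [hform c hc _ h0]
    intro v
    refine le_of_forall_pos_le_add fun ε hε => ?_
    have h1 : Kopt D A c < Kopt D A c + ε / (‖v‖ + 1) := by
      have : 0 < ε / (‖v‖ + 1) := by positivity
      linarith
    obtain ⟨K, hK, hlt⟩ := exists_lt_of_csInf_lt (hne c hc) h1
    have h2 := (hform c hc K hK.1).1 hK.2 v
    have h3 : K * ‖v‖ ≤ (Kopt D A c + ε / (‖v‖ + 1)) * ‖v‖ :=
      mul_le_mul_of_nonneg_right hlt.le (norm_nonneg _)
    have h4 : ε / (‖v‖ + 1) * ‖v‖ ≤ ε := by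
      rw [div_mul_eq_mul_div, div_le_iff₀ (by positivity)]
      nlinarith [norm_nonneg v]
    nlinarith

end Pool.Agent.X83.DA
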