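import Pool.Agent.X83.DA.Stm

set_option autoImplicit false

namespace Pool.Agent.X83.DA

open MeasureTheory Set Filter Topology RealInnerProductSpace

section
variable {H : Type*} [NormedAddCommGroup H] [InnerProductSpace ℝ H] [CompleteSpace H]

/-- the families are unique -/
theorem fam_unique (hEN : S_EN H) (D : Submodule ℝ H) (A : D →ₗ[ℝ] H) (b c : ℝ) (hc : 0 < c)
    (hA : SA D A b) (P G P' G' : ℝ → H →L[ℝ] H) (h : Fam D A c P G) (h' : Fam D A c P' G')
    (t : ℝ) (ht : 0 ≤ t) : P t = P' t ∧ G t = G' t := by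
  obtain ⟨γ0, hγ0, hh⟩ := hEN b c c hA.bpos hc le_rfl
  obtain ⟨C, hC, hh⟩ := hh γ0 hγ0 le_rfl
  have key : ∀ v : D, P t (v : H) = P' t (v : H) ∧ G t (v : H) = G' t (v : H) := by
    intro v
    have hP : ∀ x : H, Continuous fun s => P s x := fun x =>
      continuous_iff_continuousAt.2 fun s => (h.dP x s).continuousAt
    have hP' : ∀ x : H, Continuous fun s => P' s x := fun x =>
      continuous_iff_continuousAt.2 fun s => (h'.dP x s).continuousAt
    have := hh D A hA c ⟨le_rfl, le_rfl⟩ (fun s => P s (v : H) - P' s (v : H))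
      (fun s => G s (v : H) - G' s (v : H)) (fun s => P s (A v) - P' s (A v)) (fun _ => 0) 0 le_rfl
      ((hP _).sub (hP' _)) (fun s => (h.dP _ s).sub (h'.dP _ s))
      (fun s => by
        have := (h.dG s v).sub (h'.dG s v)
        refine this.congr_deriv ?_
        rw [smul_sub]; abel)
      (fun s => by
        obtain ⟨h1, e1⟩ := h.comP s v
        obtain ⟨h2, e2⟩ := h'.comP s v
        refine ⟨D.sub_mem h1 h2, ?_⟩
        rw [← e1, ← e2, ← map_sub]
        rfl)
      (fun s _ => by simp) t ht
    simp only [h.P0, h'.P0, h.G0, h'.G0, ContinuousLinearMap.zero_apply, sub_self, inner_zero_left,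
      Real.sqrt_zero, norm_zero, add_zero, mul_zero, zero_mul] at this
    exact ⟨sub_eq_zero.1 (norm_le_zero_iff.1 this.1), sub_eq_zero.1 (norm_le_zero_iff.1 this.2)⟩
  constructor
  · refine ContinuousLinearMap.coeFn_injective ?_
    exact Continuous.ext_on hA.dense (P t).continuous (P' t).continuous fun x hx => (key ⟨x, hx⟩).1
  · refine ContinuousLinearMap.coeFn_injective ?_
    exact Continuous.ext_on hA.dense (G t).continuous (G' t).continuous fun x hx => (key ⟨x, hx⟩).2

end

end Pool.Agent.X83.DA
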