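import Pool.Agent.X83.DA.Asm
import Pool.Agent.X83.DA.Uni
import Pool.Agent.X83.DA.Bdd
import Pool.Agent.X176.DA.MEM
import Pool.Agent.X154.DA.ST2
import Pool.Agent.X104.DA.SYM
import Pool.Agent.X200.DA.UP
import Pool.Agent.X151.DA.YID
import Pool.Agent.X332.DA.ZDEC
import Pool.Agent.X207.DAST1
import Pool.Agent.X4.DA.LOW

set_option autoImplicit false

namespace Pool.Agent.X83.DA

open MeasureTheory Set Filter Topology RealInnerProductSpace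

variable {H : Type*} [NormedAddCommGroup H] [InnerProductSpace ℝ H] [CompleteSpace H]

theorem final_mono (hEN : S_EN H) (D : Submodule ℝ H) (A : D →ₗ[ℝ] H) (b : ℝ) (hA : SA D A b)
    (P G : ℝ → ℝ → H →L[ℝ] H) (hF : ∀ c : ℝ, 0 < c → Fam D A c (P c) (G c)) (c1 c2 : ℝ)
    (hc1 : 0 < c1) (hc : c1 ≤ c2) (K : ℝ) (hK : 0 ≤ K) (hg : Good D A (P c1) (G c1) K) :
    Good D A (P c2) (G c2) K :=
  main hEN (Pool.Agent.X151.DA.t H) (Pool.Agent.X176.DA.MEM.t H) (Pool.Agent.X207.DAST1.t_ST1 H)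
    (Pool.Agent.X154.DA.t H) (Pool.Agent.X104.DA.SYM.t H) (Pool.Agent.X332.DA.t H)
    (Pool.Agent.X200.DA.t H) (Pool.Agent.X4.DA.t H) D A b hA P G hF c1 c2 hc1 hc K hK hg

theorem final_dec (hEN : S_EN H) (D : Submodule ℝ H) (A : D →ₗ[ℝ] H) (b c : ℝ) (hA : SA D A b)
    (hc : 0 < c) (P G : ℝ → H →L[ℝ] H) (hF : Fam D A c P G) : Dec H P G := by
  obtain ⟨γ, C, hγ, hC, h1⟩ := Pool.Agent.X207.DAST1.t_ST1 H hEN (Pool.Agent.X151.DA.t H)
    (Pool.Agent.X176.DA.MEM.t H) b c c hA.bpos hc le_rfl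
  have hFc' : Fam D A (c + 0) P G := by simpa using hF
  exact ⟨γ, C, hγ, hC, (h1 D A hA c 0 le_rfl le_rfl (by simp) P G P G hF hFc').1⟩

/-- the formula for the optimal constant -/
theorem final_formula (hEN : S_EN H) (D : Submodule ℝ H) (A : D →ₗ[ℝ] H) (b c : ℝ)
    (hA : SA D A b) (hc : 0 < c) (P G : ℝ → H →L[ℝ] H) (hF : Fam D A c P G) (K : ℝ) (hK : 0 ≤ K) :
    Good D A P G K ↔ ∀ v : H, ∫ s in Ioi (0 : ℝ), ‖G s v‖ ≤ K * ‖v‖ := by
  have hd := final_dec hEN D A b c hA hc P G hF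
  have hs := Pool.Agent.X104.DA.SYM.t H D A b c P G hA hF
  refine ⟨fun h => Pool.Agent.X4.DA.t H D A b c K P G hA hF hd hs h, fun h => ?_⟩
  exact Pool.Agent.X200.DA.t H D A b c K P G hK hA hF hd hs
    (Pool.Agent.X332.DA.t H hEN D A b c P G hc hA hF) h

/-- some constant is admissible -/
theorem final_exists (hEN : S_EN H) (D : Submodule ℝ H) (A : D →ₗ[ℝ] H) (b c : ℝ)
    (hA : SA D A b) (hc : 0 < c) (P G : ℝ → H →L[ℝ] H) (hF : Fam D A c P G) :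
    ∃ K : ℝ, 0 ≤ K ∧ Good D A P G K := by
  obtain ⟨γ, C, hγ, hC, hd⟩ := final_dec hEN D A b c hA hc P G hF
  have hE0 : 0 ≤ ∫ s in Ioi (0:ℝ), Real.exp (-(γ * s)) :=
    integral_nonneg fun s => (Real.exp_pos _).le
  refine ⟨C * ∫ s in Ioi (0:ℝ), Real.exp (-(γ * s)), mul_nonneg hC hE0, ?_⟩
  rw [final_formula hEN D A b c hA hc P G hF _ (mul_nonneg hC hE0)]
  intro v
  have h2 := setIntegral_mono_on (int_G hγ hF.cont (fun v s hs => (hd v s hs).2) v)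
    ((int_exp hγ).const_mul (C * ‖v‖)) measurableSet_Ioi
    (fun s hs => (hd v s (le_of_lt hs)).2)
  rw [integral_const_mul] at h2
  calc ∫ s in Ioi (0 : ℝ), ‖G s v‖ ≤ C * ‖v‖ * ∫ s in Ioi (0:ℝ), Real.exp (-(γ * s)) := h2
    _ = _ := by ring

end Pool.Agent.X83.DA
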